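import Mathlib

/-!
# Pairs of congruent `p`-adic integers
-/

set_option autoImplicit false

namespace Pool.Agent.Helper65.KW

variable {p : ℕ} [hp : Fact p.Prime]

/-- reduction modulo `p ^ 2` -/
noncomputable abbrev pi2 (p : ℕ) [Fact p.Prime] : ℤ_[p] →+* ZMod (p ^ 2) := PadicInt.toZModPow 2

theorem pi2_iff (z : ℤ_[p]) : pi2 p z = 0 ↔ (p : ℤ_[p]) ^ 2 ∣ z := by
  rw [← RingHom.mem_ker, PadicInt.ker_toZModPow, Ideal.mem_span_singleton]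

theorem pi2_pow {j : ℕ} (hj : 2 ≤ j) : pi2 p ((p : ℤ_[p]) ^ j) = 0 :=
  (pi2_iff _).2 (pow_dvd_pow _ hj)

theorem norm_of_dvd {z : ℤ_[p]} {j : ℕ} (h : (p : ℤ_[p]) ^ j ∣ z) :
    ‖z‖ ≤ (p : ℝ) ^ (-j : ℤ) := by
  rw [PadicInt.norm_le_pow_iff_mem_span_pow, Ideal.mem_span_singleton]
  exact h

theorem dvd_of_norm {z : ℤ_[p]} {j : ℕ} (h : ‖z‖ ≤ (p : ℝ) ^ (-j : ℤ)) :
    (p : ℤ_[p]) ^ j ∣ z := by
  rw [PadicInt.norm_le_pow_iff_mem_span_pow, Ideal.mem_span_singleton] at h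
  exact h

theorem isUnit_of_pi2 {z : ℤ_[p]} (h : pi2 p z = 1) : IsUnit z := by
  by_contra hu
  have h1 : ‖z‖ < 1 := PadicInt.not_isUnit_iff.1 hu
  rw [PadicInt.norm_lt_one_iff_dvd] at h1
  obtain ⟨t, rfl⟩ := h1
  have h2 : pi2 p ((p : ℤ_[p]) ^ 2) = 0 := pi2_pow le_rfl
  have h3 : (1 : ZMod (p ^ 2)) = 0 := by
    calc (1 : ZMod (p ^ 2)) = (pi2 p (p * t)) ^ 2 := by rw [h]; simp
      _ = pi2 p ((p : ℤ_[p]) ^ 2) * pi2 p (t ^ 2) := by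
        rw [← map_pow, ← map_mul]
        congr 1
        ring
      _ = 0 := by rw [h2, zero_mul]
  have h4 : 1 < p ^ 2 := Nat.one_lt_pow (by norm_num) hp.out.one_lt
  have : Fact (1 < p ^ 2) := ⟨h4⟩
  exact one_ne_zero h3

/-- Pairs of `p`-adic integers that are congruent modulo `p ^ j`. -/
def AR (p : ℕ) [Fact p.Prime] (j : ℕ) : Subring (ℤ_[p] × ℤ_[p]) where
  carrier := {z | (p : ℤ_[p]) ^ j ∣ z.2 - z.1}
  mul_mem' := by
    rintro ⟨a, b⟩ ⟨c, d⟩ h1 h2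
    have e : b * d - a * c = (b - a) * d + a * (d - c) := by ring
    show _ ∣ b * d - a * c
    rw [e]
    exact dvd_add (Dvd.dvd.mul_right h1 _) (Dvd.dvd.mul_left h2 _)
  one_mem' := by
    show _ ∣ (1 : ℤ_[p]) - 1
    rw [sub_self]
    exact dvd_zero _
  add_mem' := by
    rintro ⟨a, b⟩ ⟨c, d⟩ h1 h2
    have e : b + d - (a + c) = (b - a) + (d - c) := by ring
    show _ ∣ b + d - (a + c)
    rw [e]
    exact dvd_add h1 h2
  zero_mem' := by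
    show _ ∣ (0 : ℤ_[p]) - 0
    rw [sub_self]
    exact dvd_zero _
  neg_mem' := by
    rintro ⟨a, b⟩ h1
    have e : -b - -a = -(b - a) := by ring
    show _ ∣ -b - -a
    rw [e]
    exact (dvd_neg).2 h1

/-- the first component -/
noncomputable def ev0 (p : ℕ) [Fact p.Prime] (j : ℕ) : AR p j →+* ℤ_[p] :=
  (RingHom.fst ℤ_[p] ℤ_[p]).comp (AR p j).subtype

/-- the second component -/
noncomputable def ev1 (p : ℕ) [Fact p.Prime] (j : ℕ) : AR p j →+* ℤ_[p] :=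
  (RingHom.snd ℤ_[p] ℤ_[p]).comp (AR p j).subtype

/-- the diagonal -/
noncomputable def dia (p : ℕ) [Fact p.Prime] (j : ℕ) : ℤ_[p] →+* AR p j :=
  ((RingHom.id ℤ_[p]).prod (RingHom.id ℤ_[p])).codRestrict (AR p j) fun z => by
    show _ ∣ z - z
    rw [sub_self]
    exact dvd_zero _

theorem ev0_dia (j : ℕ) : (ev0 p j).comp (dia p j) = RingHom.id ℤ_[p] := rfl

theorem ev1_dia (j : ℕ) : (ev1 p j).comp (dia p j) = RingHom.id ℤ_[p] := rfl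

theorem ev_ext {j : ℕ} {a b : AR p j} (h0 : ev0 p j a = ev0 p j b) (h1 : ev1 p j a = ev1 p j b) :
    a = b := Subtype.ext (Prod.ext h0 h1)

/-- the quotient of the difference -/
noncomputable def quo {j : ℕ} (z : AR p j) : ℤ_[p] := Classical.choose z.2

theorem quo_spec {j : ℕ} (z : AR p j) : ev1 p j z - ev0 p j z = (p : ℤ_[p]) ^ j * quo z :=
  Classical.choose_spec z.2

theorem ppow_ne (j : ℕ) : (p : ℤ_[p]) ^ j ≠ 0 :=
  pow_ne_zero _ (by exact_mod_cast hp.out.ne_zero)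

theorem quo_eq {j : ℕ} {z : AR p j} {q : ℤ_[p]}
    (h : ev1 p j z - ev0 p j z = (p : ℤ_[p]) ^ j * q) : quo z = q :=
  mul_left_cancel₀ (ppow_ne j) (by rw [← quo_spec, h])

/-- the homomorphism to the dual numbers -/
noncomputable def phi (p : ℕ) [Fact p.Prime] {j : ℕ} (hj : 2 ≤ j) :
    AR p j →+* DualNumber (ZMod (p ^ 2)) where
  toFun z := TrivSqZeroExt.inl (pi2 p (ev0 p j z)) + TrivSqZeroExt.inr (pi2 p (quo z))
  map_one' := by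
    have h : quo (1 : AR p j) = 0 := quo_eq (by simp)
    rw [h]
    simp
  map_mul' z w := by
    have h : quo (z * w) = ev0 p j z * quo w + quo z * ev0 p j w +
        (p : ℤ_[p]) ^ j * (quo z * quo w) := by
      apply quo_eq
      have h1 : ev1 p j z = ev0 p j z + (p : ℤ_[p]) ^ j * quo z := by rw [← quo_spec]; ring
      have h2 : ev1 p j w = ev0 p j w + (p : ℤ_[p]) ^ j * quo w := by rw [← quo_spec]; ring
      rw [map_mul, map_mul, h1, h2]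
      ring
    rw [h]
    ext
    · simp
    · simp only [map_add, map_mul, pi2_pow hj, zero_mul, add_zero, TrivSqZeroExt.snd_add,
        TrivSqZeroExt.snd_inl, TrivSqZeroExt.snd_inr, TrivSqZeroExt.snd_mul,
        TrivSqZeroExt.fst_add, TrivSqZeroExt.fst_inl, TrivSqZeroExt.fst_inr, zero_add,
        smul_eq_mul, MulOpposite.smul_eq_mul_unop, MulOpposite.unop_op]
  map_zero' := by
    have h : quo (0 : AR p j) = 0 := quo_eq (by simp)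
    rw [h]
    simp
  map_add' z w := by
    have h : quo (z + w) = quo z + quo w := by
      apply quo_eq
      have h1 : ev1 p j z = ev0 p j z + (p : ℤ_[p]) ^ j * quo z := by rw [← quo_spec]; ring
      have h2 : ev1 p j w = ev0 p j w + (p : ℤ_[p]) ^ j * quo w := by rw [← quo_spec]; ring
      rw [map_add, map_add, h1, h2]
      ring
    rw [h]
    ext <;> simp

theorem phi_fst {j : ℕ} (hj : 2 ≤ j) (z : AR p j) :
    (phi p hj z).fst = pi2 p (ev0 p j z) := by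
  simp [phi]

theorem phi_snd {j : ℕ} (hj : 2 ≤ j) (z : AR p j) : (phi p hj z).snd = pi2 p (quo z) := by
  simp [phi]

theorem isUnit_AR {j : ℕ} (hj : 2 ≤ j) {z : AR p j} (h : phi p hj z = 1) : IsUnit z := by
  have h0 : pi2 p (ev0 p j z) = 1 := by rw [← phi_fst hj, h, TrivSqZeroExt.fst_one]
  have h1 : pi2 p (ev1 p j z) = 1 := by
    have h2 : ev1 p j z = ev0 p j z + (p : ℤ_[p]) ^ j * quo z := by rw [← quo_spec]; ring
    rw [h2, map_add, map_mul, pi2_pow hj, zero_mul, add_zero, h0]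
  obtain ⟨a, ha⟩ := isUnit_of_pi2 h0
  obtain ⟨b, hb⟩ := isUnit_of_pi2 h1
  have hmem : (((a⁻¹ : ℤ_[p]ˣ) : ℤ_[p]), ((b⁻¹ : ℤ_[p]ˣ) : ℤ_[p])) ∈ AR p j := by
    show _ ∣ ((b⁻¹ : ℤ_[p]ˣ) : ℤ_[p]) - ((a⁻¹ : ℤ_[p]ˣ) : ℤ_[p])
    have e : ((b⁻¹ : ℤ_[p]ˣ) : ℤ_[p]) - ((a⁻¹ : ℤ_[p]ˣ) : ℤ_[p]) =
        (b - a) * (-(((b⁻¹ : ℤ_[p]ˣ) : ℤ_[p]) * ((a⁻¹ : ℤ_[p]ˣ) : ℤ_[p]))) := by
      have e1 : (a : ℤ_[p]) * ((a⁻¹ : ℤ_[p]ˣ) : ℤ_[p]) = 1 := a.mul_inv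
      have e2 : (b : ℤ_[p]) * ((b⁻¹ : ℤ_[p]ˣ) : ℤ_[p]) = 1 := b.mul_inv
      linear_combination ((a⁻¹ : ℤ_[p]ˣ) : ℤ_[p]) * e2 - ((b⁻¹ : ℤ_[p]ˣ) : ℤ_[p]) * e1
    rw [e, hb, ha]
    exact Dvd.dvd.mul_right z.2 _
  refine IsUnit.of_mul_eq_one ⟨_, hmem⟩ ?_
  refine ev_ext ?_ ?_
  · rw [map_mul, map_one]
    show ev0 p j z * ((a⁻¹ : ℤ_[p]ˣ) : ℤ_[p]) = 1
    rw [← ha]
    exact a.mul_inv
  · rw [map_mul, map_one]
    show ev1 p j z * ((b⁻¹ : ℤ_[p]ˣ) : ℤ_[p]) = 1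
    rw [← hb]
    exact b.mul_inv

theorem phi_bound {j : ℕ} (hj : 2 ≤ j) {z w : AR p j} (h : phi p hj z = phi p hj w) :
    ‖(ev1 p j z - ev0 p j z) - (ev1 p j w - ev0 p j w)‖ ≤
      (p : ℝ) ^ (-2 : ℤ) * (p : ℝ) ^ (-j : ℤ) := by
  have h1 : pi2 p (quo z - quo w) = 0 := by
    rw [map_sub, ← phi_snd hj, ← phi_snd hj, h, sub_self]
  rw [pi2_iff] at h1
  have e : (ev1 p j z - ev0 p j z) - (ev1 p j w - ev0 p j w) =
      (p : ℤ_[p]) ^ j * (quo z - quo w) := by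
    rw [quo_spec, quo_spec]
    ring
  have h2 : (p : ℤ_[p]) ^ (2 + j) ∣ (p : ℤ_[p]) ^ j * (quo z - quo w) := by
    rw [add_comm, pow_add]
    exact mul_dvd_mul_left _ h1
  rw [e]
  refine (norm_of_dvd h2).trans (le_of_eq ?_)
  have hp0 : (p : ℝ) ≠ 0 := by exact_mod_cast hp.out.ne_zero
  rw [← zpow_add₀ hp0]
  congr 1
  push_cast
  ring

theorem phi_pi2 {j : ℕ} (hj : 2 ≤ j) {z w : AR p j} (h : phi p hj z = phi p hj w) :
    pi2 p (ev0 p j z) = pi2 p (ev0 p j w) := by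
  rw [← phi_fst hj, ← phi_fst hj, h]

end Pool.Agent.Helper65.KW
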